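import Mathlib
import Pool.Agent.H361R2.InfCor2

/-! Infinite exact patterns of primes in first kind Cunningham orbits. -/

theorem Pool.Agent.Results.MP_c77da8_nt.InfinitePatterns.result :
    ∀ s : ℕ → ℕ, Function.Injective s → ∀ ε : ℝ, 0 < ε → ∃ I : Set ℕ,
      (∃ᶠ X : ℕ in Filter.atTop, (Real.log X) ^ (1 - ε) ≤ ((I ∩ Set.Iio X).ncard : ℝ)) ∧
      ∀ M : ℕ, {n : ℕ | ∀ j ≤ M, (Nat.Prime (2 ^ j * n - 1) ↔ ∃ i ∈ I, s i = j)}.Infinite :=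
  fun s hs ε hε => Pool.Agent.H361R2.Inf.first_kind s hs ε hε
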