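import Pool.Agent.H495R2.Dk.Final

/-!
Dickson's conjecture with `prime` replaced by `exactly r_i distinct prime factors`: for every `k`
there are `r0` and `R`, depending on `k` only, such that for every admissible family of `k` distinct
linear polynomials and every vector `(r_1, ..., r_k)` with all `r_i ≥ r0` there are infinitely many
`m` such that for all `i` the number `a_i m + b_i` has exactly `r_i` distinct prime factors.
Moreover `a_i m + b_i = c s` with `c` bounded and `s` squarefree, all prime factors `p` of `s`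
satisfying `p ^ R ≥ m`.
-/

set_option autoImplicit false

namespace Pool.Agent.Results.MP_c77da8_nt.PrimeFactorCounts

theorem result (k : ℕ) : ∃ r0 R : ℕ, ∀ a b : Fin k → ℤ, (∀ i, 0 < a i) →
    (∀ i j, i ≠ j → ¬ (a i = a j ∧ b i = b j)) →
    (∀ p : ℕ, p.Prime → ∃ n : ℕ, ∀ i, ¬ (p : ℤ) ∣ a i * n + b i) →
    ∀ r : Fin k → ℕ, (∀ i, r0 ≤ r i) → ∃ C : ℕ, ∀ N : ℕ, ∃ m : ℕ, N ≤ m ∧
      ∀ i, ∃ c s : ℕ, a i * m + b i = ((c * s : ℕ) : ℤ) ∧ c ≤ C ∧ Squarefree s ∧
        (∀ p : ℕ, p.Prime → p ∣ s → m ≤ p ^ R) ∧ (c * s).primeFactors.card = r i :=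
  Pool.Agent.H495R2.Dk.all k

end Pool.Agent.Results.MP_c77da8_nt.PrimeFactorCounts
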